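import Pool.Agent.Q89.TA3

set_option autoImplicit false

/-!
# The closed abelianization of `St_G(D-1)` is torsion for every group of finite type

Vertices of the `d`-regular rooted tree are words over `Fin d` (`W d`), `TreeAut d` is the automorphism
group of the tree, `sec g v` is the section of `g` at `v`, `Ball d D` is the set of vertices of `T^[D]`,
`GP P` is the group of finite type `G_P`, `levelStab d n` is the group of permutations fixing every vertex
of level `n`, and `treeClosure H` is the closure of `H` in the topology given by the level stabilizers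
(`Pool/Agent/Q89/TA2.lean`, `TA3.lean`).

The theorem answers Q1 affirmatively for every `d ≥ 2`, `D ≥ 1` and every `P`: with
`N = |G : St_G(D-1)| * |G : St_G(D)|`, a positive integer, `g ^ N` lies in the closure of the commutator
subgroup of `St_G(D-1)` for every `g` in `St_G(D-1)`.
-/

namespace Pool.Agent.Results.MP_66c699_al.TorsionAbelianization

open Pool.Agent.Q89.TA

theorem result (d : ℕ) (hd : 2 ≤ d) (D : ℕ) (hD : 1 ≤ D) (P : Subgroup (Equiv.Perm (Ball d D))) :
    ∃ N : ℕ, N = (levelStab d (D - 1)).relIndex (GP P) * (levelStab d D).relIndex (GP P) ∧ 0 < N ∧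
      ∀ g ∈ levelStab d (D - 1) ⊓ GP P,
        g ^ N ∈ treeClosure ⁅levelStab d (D - 1) ⊓ GP P, levelStab d (D - 1) ⊓ GP P⁆ := by
  obtain ⟨D', rfl⟩ : ∃ D', D = D' + 1 := ⟨D - 1, by omega⟩
  exact ⟨_, rfl, Nat.pos_of_ne_zero (final_ne P), fun g hg => final (by omega) P g hg⟩

end Pool.Agent.Results.MP_66c699_al.TorsionAbelianization
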